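import Mathlib
import Pool.Agent.Helper394.Wrap

open Finset Filter Topology

namespace Pool.Agent.Results.MP_8d2225_pr.CyclicNoCutoff

noncomputable section

/-- Worst-case total variation distance at time `t` between the chain with transition
matrix `P` and the distribution `π`:
`d(t) = max_x (1/2) * ∑_y |P^t(x,y) - π(y)|`. -/
def dTV {Ω : Type} [Fintype Ω] [DecidableEq Ω] (P : Matrix Ω Ω ℝ) (π : Ω → ℝ) (t : ℕ) : ℝ :=
  ⨆ x : Ω, (1 / 2 : ℝ) * ∑ y, |(P ^ t) x y - π y|

/-- The mixing time `T_mix(ε) = min {t ≥ 0 : d(t) ≤ ε}`. -/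
def tmix {Ω : Type} [Fintype Ω] [DecidableEq Ω] (P : Matrix Ω Ω ℝ) (π : Ω → ℝ) (ε : ℝ) : ℕ :=
  sInf {t : ℕ | dTV P π t ≤ ε}

/-- The second largest eigenvalue of an irreducible transition matrix `P` (for which the
eigenvalue `1` is simple): the largest real eigenvalue different from `1`. -/
def lambda2 {Ω : Type} [Fintype Ω] [DecidableEq Ω] (P : Matrix Ω Ω ℝ) : ℝ :=
  sSup (spectrum ℝ P \ {1})

/-- The relaxation time `T_rel = 1 / (1 - λ₂)`. -/
def trel {Ω : Type} [Fintype Ω] [DecidableEq Ω] (P : Matrix Ω Ω ℝ) : ℝ :=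
  1 / (1 - lambda2 P)

/-- The uniform distribution. -/
def unif (G : Type) [Fintype G] : G → ℝ := fun _ => 1 / (Fintype.card G : ℝ)

/-- Transition matrix of the lazy simple random walk on `Cay(G, S)`: stay put with
probability `1/2`, otherwise move from `x` to `x + s` with `s` uniform in `S`. -/
def lazyWalk {G : Type} [AddCommGroup G] [DecidableEq G] (S : Finset G) : Matrix G G ℝ :=
  fun x y => (if y = x then 1 / 2 else 0) + (if y - x ∈ S then 1 / (2 * (S.card : ℝ)) else 0)

/-- The product condition `T_mix(1/4) / T_rel → ∞` for a sequence of chains. -/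
def ProductCondition (Ω : ℕ → Type) [∀ n, Fintype (Ω n)] [∀ n, DecidableEq (Ω n)]
    (P : ∀ n, Matrix (Ω n) (Ω n) ℝ) (π : ∀ n, Ω n → ℝ) : Prop :=
  Tendsto (fun n => (tmix (P n) (π n) (1 / 4) : ℝ) / trel (P n)) atTop atTop

/-- Total variation cutoff for a sequence of chains:
`T_mix(ε) / T_mix(1-ε) → 1` for every fixed `ε ∈ (0,1/2)`. -/
def HasCutoff (Ω : ℕ → Type) [∀ n, Fintype (Ω n)] [∀ n, DecidableEq (Ω n)]
    (P : ∀ n, Matrix (Ω n) (Ω n) ℝ) (π : ∀ n, Ω n → ℝ) : Prop :=
  ∀ ε : ℝ, 0 < ε → ε < 1 / 2 →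
    Tendsto (fun n => (tmix (P n) (π n) ε : ℝ) / (tmix (P n) (π n) (1 - ε) : ℝ)) atTop (𝓝 1)

section

variable {G : Type} [AddCommGroup G] [Fintype G] [DecidableEq G]

theorem lazyWalk_mulVec (S : Finset G) (f : G → ℝ) :
    (lazyWalk S).mulVec f = Helper394.V S f := by
  ext x
  rw [Helper394.V_apply, Helper394.U_apply]
  simp only [Matrix.mulVec, dotProduct, lazyWalk, add_mul, ite_mul, zero_mul]
  rw [Finset.sum_add_distrib]
  congr 1
  · rw [Finset.sum_ite_eq' univ x]
    simp
    ring
  · rw [← Finset.sum_filter]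
    rw [div_div, Finset.sum_div]
    refine Finset.sum_bij' (fun y _ => y - x) (fun s _ => x + s) ?_ ?_ ?_ ?_ ?_
    · intro y hy; simpa using hy
    · intro s hs; simpa using hs
    · intro y _; simp
    · intro s _; simp
    · intro y _
      simp only [add_sub_cancel]
      ring

/-- Sanity check: the rows of the transition matrix sum to one. -/
theorem lazyWalk_row_sum (S : Finset G) (hS : S.Nonempty) (x : G) :
    ∑ y, lazyWalk S x y = 1 := by
  have h := congrFun (lazyWalk_mulVec S (fun _ => 1)) x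
  have h2 := Helper394.V_pow_const S hS 1 1
  rw [pow_one] at h2
  rw [h2] at h
  simpa [Matrix.mulVec, dotProduct] using h

/-- Sanity check: the walk is reversible with respect to the uniform distribution. -/
theorem lazyWalk_symm (S : Finset G) (hS : ∀ s ∈ S, -s ∈ S) (x y : G) :
    lazyWalk S x y = lazyWalk S y x := by
  have h1 : (y = x) ↔ (x = y) := eq_comm
  have h2 : (y - x ∈ S) ↔ (x - y ∈ S) := by
    constructor
    · intro h; have := hS _ h; rwa [neg_sub] at this
    · intro h; have := hS _ h; rwa [neg_sub] at this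
  simp only [lazyWalk, h1, h2]

end

/-- There are finite cyclic groups `G_n` with `|G_n| → ∞` and symmetric generating sets `S_n`
such that the lazy simple random walks on `Cay(G_n, S_n)` satisfy the product condition but
have no cutoff in total variation. -/
theorem result :
    ∃ (G : ℕ → Type) (_ : ∀ n, AddCommGroup (G n)) (_ : ∀ n, Fintype (G n))
      (_ : ∀ n, DecidableEq (G n)) (S : ∀ n, Finset (G n)),
      (∀ n, IsAddCyclic (G n)) ∧
      Tendsto (fun n => Fintype.card (G n)) atTop atTop ∧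
      (∀ n, ∀ s ∈ S n, -s ∈ S n) ∧
      (∀ n, AddSubgroup.closure (S n : Set (G n)) = ⊤) ∧
      ProductCondition G (fun n => lazyWalk (S n)) (fun n => unif (G n)) ∧
      ¬ HasCutoff G (fun n => lazyWalk (S n)) (fun n => unif (G n)) := by
  choose N hN S hTN hS using fun n : ℕ => Helper394.exists_bad (n + 64) (by omega)
  have hP : ∀ n, ∀ f : ZMod (N n) → ℝ, (lazyWalk (S n)).mulVec f = Helper394.V (S n) f :=
    fun n f => lazyWalk_mulVec (S n) f
  have h1 : ∀ n, ∀ t ≤ n + 64,
      1 / 2 < dTV (lazyWalk (S n)) (unif (ZMod (N n))) t := by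
    intro n t ht
    have h := Helper394.fact_lower (hS n) (hP n) t ht
    have h' := Helper394.ciSup_ge_val
      (fun x : ZMod (N n) => (1 / 2 : ℝ) * ∑ y, |((lazyWalk (S n)) ^ t) x y - unif (ZMod (N n)) y|)
      0
    have h'' : (17 / 32 : ℝ) ≤ dTV (lazyWalk (S n)) (unif (ZMod (N n))) t := h.trans h'
    linarith
  have h2 : ∀ n, dTV (lazyWalk (S n)) (unif (ZMod (N n))) (2 * ((n + 64) / 8) + 1) ≤
      1 - 1 / 2000 := by
    intro n
    apply ciSup_le
    intro x
    exact Helper394.fact_upper (hS n) (hP n) ((n + 64) / 8) (by omega) x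
  have h3 : ∀ n ε, 0 < ε → ∃ t, dTV (lazyWalk (S n)) (unif (ZMod (N n))) t ≤ ε := by
    intro n ε hε
    have hG : (0 : ℝ) < Fintype.card (ZMod (N n)) := by exact_mod_cast Fintype.card_pos
    obtain ⟨t, ht⟩ := Helper394.fact_conv (hS n) (hP n) (ε / Fintype.card (ZMod (N n)))
      (by positivity)
    refine ⟨t, ciSup_le fun x => ?_⟩
    calc (1 / 2 : ℝ) * ∑ y, |((lazyWalk (S n)) ^ t) x y - unif (ZMod (N n)) y|
        ≤ (1 / 2 : ℝ) * ∑ _y : ZMod (N n), ε / Fintype.card (ZMod (N n)) := by
          gcongr with y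
          exact ht x y
      _ = ε / 2 := by
          simp only [Finset.sum_const, Finset.card_univ, nsmul_eq_mul]
          field_simp
      _ ≤ ε := by linarith
  refine ⟨fun n => ZMod (N n), fun n => inferInstance, fun n => inferInstance,
    fun n => inferInstance, S, ?_, ?_, ?_, ?_, ?_, ?_⟩
  · intro n; infer_instance
  · refine tendsto_atTop_mono (fun n => ?_) tendsto_id
    rw [ZMod.card]
    have := hTN n
    simp only [id]
    omega
  · exact fun n => (hS n).neg
  · intro n
    rw [eq_top_iff]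
    intro x _
    refine (hS n).closed (AddSubgroup.closure (S n : Set (ZMod (N n))) : Set (ZMod (N n))) 0
      (AddSubgroup.zero_mem _) ?_ x
    intro y hy s hs
    exact AddSubgroup.add_mem _ hy (AddSubgroup.subset_closure hs)
  · apply Helper394.tendsto_div_of
    · intro n
      exact Helper394.sInf_gt _ (n + 64) _ (by norm_num) (h1 n) (h3 n _ (by norm_num))
    · intro n
      obtain ⟨h4, h5⟩ := Helper394.lam2_bound (lazyWalk (S n))
        (fun lam hlam hne => Helper394.fact_spec (hS n) (hP n) lam hlam hne)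
      have h6 : 0 < 1 - lambda2 (lazyWalk (S n)) := by
        have : lambda2 (lazyWalk (S n)) ≤ 7 / 8 := h5
        linarith
      refine ⟨one_div_pos.mpr h6, ?_⟩
      rw [trel, div_le_iff₀ h6]
      have : lambda2 (lazyWalk (S n)) ≤ 7 / 8 := h5
      linarith
  · intro hcut
    exact Helper394.no_cutoff_of (fun n => dTV (lazyWalk (S n)) (unif (ZMod (N n)))) h1 h2 h3
      (hcut (1 / 2000) (by norm_num) (by norm_num))

end

end Pool.Agent.Results.MP_8d2225_pr.CyclicNoCutoff
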